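import Pool.Agent.U728.Uplus.Center

/-!
# The center of the positive part of quantum affine `sl_2` is trivial

`U^+` is the algebra with two generators and the two cubic `q`-Serre relations
(the quotient `RingQuot (SerreRel K q)` of the free algebra).  For `q` nonzero and not a root of unity its center is `K 1`.

Idea of the proof.
* `U^+` is a braided Hopf algebra.  On a weight space of weight `(m, n)` the square of the braided
  antipode is the scalar `q^(2((m-n)^2 - (m+n)))`, whereas it is the identity on primitive elements.
* By induction on the height, an element of positive weight killed by both skew derivations `r_0`,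
  `r_1` is primitive; so it vanishes unless `(m-n)^2 = m+n`, and in that case `m ≠ n` and an
  argument with the adjoint action and the Serre relation shows that it vanishes too.
* A homogeneous central element has weight `(n, n)` and is killed by `r_0` and `r_1`.
-/

namespace Pool.Agent.Results.MP_cafee0_al.CenterTrivial

open Pool.Agent.U728.Uplus

/-- The center of `U^+` is the algebra of scalars (the subalgebra generated by the empty set), and
the scalars embed into `U^+`. -/
theorem result (K : Type*) [Field K] (q : K) (hq0 : q ≠ 0) (hq : ∀ n : ℕ, 0 < n → q ^ n ≠ 1) :
    Subalgebra.center K (RingQuot (SerreRel K q)) = ⊥ ∧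
    Function.Injective (algebraMap K (RingQuot (SerreRel K q))) :=
  ⟨center_eq_bot hq0 hq, algebraMap_injective (K := K) (q := q)⟩

end Pool.Agent.Results.MP_cafee0_al.CenterTrivial
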